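import Pool.Agent.Q291.HEA.Model
import Pool.Agent.Q291.HEA.Fin4

/-!
# The Gibbs states of the Edwards-Anderson model on the hierarchical lattices

The infinite hierarchical lattice, its bonds `Bond B e`, sites `Site B e` and the Gibbs states
`Gibbs β J` are defined in `Pool/Agent/Q291/HEA/Model.lean`. Dimension `d` corresponds to
`B = 2 ^ (d - 1)` branches. The couplings are independent with law `μ`.
-/

set_option autoImplicit false

open MeasureTheory Filter Topology Set

namespace Pool.Agent.Results.MP_81d17b_pr.HierarchicalPureStates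

open Pool.Agent.Q291.HEA

/-- Let `e` take both values infinitely often; each site has finitely many bonds. Let the couplings
be independent with a symmetric law `μ`. For all `B ≥ 2` and every `β`, almost surely there is a
Gibbs state `π` such that the Gibbs states are exactly the mixtures of `π` and its global spin
flip. -/
theorem result (e : ℕ → Bool)
    (he : (∀ n, ∃ k, n ≤ k ∧ e k = true) ∧ ∀ n, ∃ k, n ≤ k ∧ e k = false) :
    (∀ (B : ℕ) [NeZero B] (v : Site B e), {b : Bond B e | lend 0 b = v ∨ rend 0 b = v}.Finite) ∧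
    (∀ (B : ℕ) [NeZero B], 2 ≤ B → ∀ (μ : Measure ℝ) [IsProbabilityMeasure μ],
      μ.map (fun x => -x) = μ → ∀ β : ℝ,
      ∀ᵐ J ∂(Measure.infinitePi fun _ : Bond B e => μ), ∃ π : Measure (Site B e → Bool),
        ∀ π', Gibbs β J π' ↔ ∃ t : ℝ, 0 ≤ t ∧ t ≤ 1 ∧
          π' = ENNReal.ofReal t • π + ENNReal.ofReal (1 - t) • π.map (fun η v => !(η v))) := by
  obtain ⟨r1, -, -⟩ := Pool.Agent.Q291.HEA.Bas.round1 e he
  exact ⟨r1, thmS e he⟩

end Pool.Agent.Results.MP_81d17b_pr.HierarchicalPureStates
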