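import Pool.Agent.Q291.HEA.Model
import Pool.Agent.Q291.HEA.Fin4

/-!
# The phase transition of the Edwards-Anderson model on the hierarchical lattices

The infinite hierarchical lattice, its bonds `Bond B e`, sites `Site B e` and the Gibbs states
`Gibbs β J` are defined in `Pool/Agent/Q291/HEA/Model.lean`. Dimension `d` corresponds to
`B = 2 ^ (d - 1)` branches. The couplings are independent with law `μ`.
-/

set_option autoImplicit false

open MeasureTheory Filter Topology Set

namespace Pool.Agent.Results.MP_81d17b_pr.HierarchicalTransition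

open Pool.Agent.Q291.HEA

/-- Let `e` take both values infinitely often (the lattice is locally finite). Independent couplings
with law `μ`:
(1) each site has finitely many bonds;
(2) if `B |β| ∫ |x| dμ < 1` then almost surely there is exactly one Gibbs state;
(3) `B = 2` (dimension two), `μ` symmetric and integrable: for every `β`, almost surely there is
exactly one Gibbs state;
(4) `B ≥ 4` (dimension three and more), `μ` symmetric with `μ {0} < 1 / 2`: there is `β₀` such that
for every `β ≥ β₀`, almost surely there is a Gibbs state `π`, different from its global spin flip,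
which is a Gibbs state, too, and there are sites with magnetization arbitrarily close to `1` or `-1`
under `π`. -/
theorem result (e : ℕ → Bool)
    (he : (∀ n, ∃ k, n ≤ k ∧ e k = true) ∧ ∀ n, ∃ k, n ≤ k ∧ e k = false) :
    (∀ (B : ℕ) [NeZero B] (v : Site B e), {b : Bond B e | lend 0 b = v ∨ rend 0 b = v}.Finite) ∧
    (∀ (B : ℕ) [NeZero B] (μ : Measure ℝ) [IsProbabilityMeasure μ], Integrable (fun x => x) μ →
      ∀ β : ℝ, B * (|β| * ∫ x, |x| ∂μ) < 1 →
      ∀ᵐ J ∂(Measure.infinitePi fun _ : Bond B e => μ), ∃! π, Gibbs β J π) ∧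
    (∀ (μ : Measure ℝ) [IsProbabilityMeasure μ], μ.map (fun x => -x) = μ →
      Integrable (fun x => x) μ → ∀ β : ℝ,
      ∀ᵐ J ∂(Measure.infinitePi fun _ : Bond 2 e => μ), ∃! π, Gibbs β J π) ∧
    (∀ (B : ℕ) [NeZero B], 4 ≤ B → ∀ (μ : Measure ℝ) [IsProbabilityMeasure μ],
      μ.map (fun x => -x) = μ → μ.real {0} < 1 / 2 → ∃ β₀ : ℝ, ∀ β : ℝ, β₀ ≤ β →
      ∀ᵐ J ∂(Measure.infinitePi fun _ : Bond B e => μ), ∃ π : Measure (Site B e → Bool),
        Gibbs β J π ∧ Gibbs β J (π.map (fun η v => !(η v))) ∧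
        π.map (fun η v => !(η v)) ≠ π ∧
        ∀ δ : ℝ, δ < 1 → ∃ a : Site B e, δ ≤ |2 * π.real {η | η a = true} - 1|) := by
  obtain ⟨r1, r2, -⟩ := Pool.Agent.Q291.HEA.Bas.round1 e he
  obtain ⟨m1, m2, m3⟩ := Pool.Agent.Q291.HEA.main e he
  refine ⟨r1, m1, r2, fun B _ hB μ _ hs h0 => ?_⟩
  obtain ⟨β₀, h⟩ := m3 B hB μ hs (conc_of_zero μ hs h0)
  refine ⟨β₀, fun β hβ => ?_⟩
  filter_upwards [h β hβ] with J hJ
  obtain ⟨π, h1, h2, h3⟩ := hJ
  refine ⟨π, (h3 π).2 ⟨1, zero_le_one, le_rfl, ?_⟩, (h3 _).2 ⟨0, le_rfl, zero_le_one, ?_⟩, h1, h2⟩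
  · simp
  · simp

end Pool.Agent.Results.MP_81d17b_pr.HierarchicalTransition
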