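import Pool.Agent.Q234.EA.Hrn

/-!
# The `±1` Edwards–Anderson model on horns: one Gibbs state at every temperature

On horns of `ℤ^(k+2)` whose cross-section is at most `c log n` at distance `n`, almost surely the
`±1` spin glass has exactly one Gibbs state for every `β > 0` simultaneously (`c` does not depend
on `β`).
-/

set_option autoImplicit false

open MeasureTheory Filter

namespace Pool.Agent.Results.MP_81d17b_pr.LogHorn

/-- The sites of `ℤ^d`, `d = k + 2 ≥ 2`. -/
abbrev Site (k : ℕ) : Type := Fin (k + 2) → ℤ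

/-- The bond `(v, i)` joins `v` and `v + e_i`. -/
abbrev Bond (k : ℕ) : Type := Site k × Fin (k + 2)

/-- The horn of width `w`: the points `v` with `v_0 ≥ 0` and `|v_i| ≤ w(v_0)` for all `i ≥ 1`. Its
cross-section at distance `n` has `(2 w(n) + 1)^(k + 1)` sites. -/
def horn (k : ℕ) (w : ℕ → ℕ) : Set (Site k) :=
  {v | 0 ≤ v 0 ∧ ∀ i : Fin (k + 1), |v i.succ| ≤ (w (v 0).toNat : ℤ)}

/-- `true` stands for `+1`, `false` for `-1`. -/
def sign (b : Bool) : ℝ := if b then 1 else -1

variable {k : ℕ}

open Classical in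
/-- The spin at `v` of a configuration on the region `R` (`0` if `v` is not in `R`, so that the
bonds which leave `R` do not contribute to the energy). -/
noncomputable def spin (R : Set (Site k)) (σ : R → Bool) (v : Site k) : ℝ :=
  if h : v ∈ R then sign (σ ⟨v, h⟩) else 0

/-- The bonds with at least one end in `Λ`. -/
noncomputable def bonds {R : Set (Site k)} (Λ : Finset R) : Finset (Bond k) :=
  Λ.biUnion fun x => Finset.univ.biUnion fun i => {(x.1, i), (x.1 - Pi.single i 1, i)}

/-- `β ∑ J_xy σ_x σ_y`, summed over the bonds `{x, y}` of the region with an end in `Λ`. -/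
noncomputable def energy (R : Set (Site k)) (β : ℝ) (J : Bond k → Bool) (Λ : Finset R)
    (σ : R → Bool) : ℝ :=
  ∑ e ∈ bonds Λ, β * sign (J e) * (spin R σ e.1 * spin R σ (e.1 + Pi.single e.2 1))

/-- The configuration equal to `η` on `Λ` and to `τ` off `Λ`. -/
def glue {R : Set (Site k)} (Λ : Finset R) (η : Λ → Bool) (τ : R → Bool) : R → Bool :=
  fun x => if h : x ∈ Λ then η ⟨x, h⟩ else τ x

/-- The probability of `A` under the Edwards–Anderson measure in `Λ` with boundary condition `τ`
(weights `exp (β ∑ J_xy σ_x σ_y)`). -/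
noncomputable def finiteVolume (R : Set (Site k)) (β : ℝ) (J : Bond k → Bool) (Λ : Finset R)
    (τ : R → Bool) (A : Set (R → Bool)) : ℝ :=
  (∑ η : Λ → Bool, Real.exp (energy R β J Λ (glue Λ η τ)) *
      A.indicator (fun _ => (1 : ℝ)) (glue Λ η τ)) /
    ∑ η : Λ → Bool, Real.exp (energy R β J Λ (glue Λ η τ))

/-- Gibbs states on the region `R` at `(β, J)`: probability measures on `{±1}^R` which satisfy the
DLR equations for all finite sets. -/
def IsGibbs (R : Set (Site k)) (β : ℝ) (J : Bond k → Bool) (π : Measure (R → Bool)) : Prop :=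
  IsProbabilityMeasure π ∧ ∀ (Λ : Finset R) (A : Set (R → Bool)), MeasurableSet A →
    (π A).toReal = ∫ τ, finiteVolume R β J Λ τ A ∂π

/-- **Theorem.** Let `d = k + 2 ≥ 2` and let the couplings be independent, `+1` with probability
`ν {true}` and `-1` with probability `ν {false}`, both positive (for instance `1/2`). There is
`c > 0` such that for every nondecreasing width `w` with `(2 w(n) + 1)^(d-1) ≤ c log n` for all
large `n`, for almost every realisation `J` there is, for every `β > 0`, exactly one Gibbs state at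
`(β, J)` on the horn of width `w`. -/
theorem result (k : ℕ) (ν : Measure Bool) [IsProbabilityMeasure ν] (hν : ∀ b, ν {b} ≠ 0) :
    ∃ c : ℝ, 0 < c ∧ ∀ w : ℕ → ℕ, Monotone w →
      (∀ᶠ n : ℕ in atTop, (2 * (w n : ℝ) + 1) ^ (k + 1) ≤ c * Real.log n) →
      ∀ᵐ J ∂(Measure.infinitePi fun _ : Bond k => ν), ∀ β : ℝ, 0 < β →
        ∃! π : Measure (horn k w → Bool), IsGibbs (horn k w) β J π := by
  have h0 : ∀ b, 0 < ν.real {b} := fun b =>
    ENNReal.toReal_pos (hν b) (measure_ne_top _ _)
  set q : ℝ := min (ν.real {true}) (ν.real {false}) with hq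
  have hq0 : 0 < q := lt_min (h0 _) (h0 _)
  have hqν : ∀ b : Bool, q ≤ ν.real {b} := by
    intro b
    cases b
    · exact min_le_right _ _
    · exact min_le_left _ _
  have hq1 : q ≤ 1 := (hqν true).trans measureReal_le_one
  have hc := Q234.EA.cst_ge (k := k) hq0 hq1
  refine ⟨1 / Q234.EA.cst k q, by positivity, fun w hw hg => ?_⟩
  refine Q234.EA.main (k := k) ν hq0 hqν hw ?_
  filter_upwards [hg] with n hn
  rw [one_div, inv_mul_eq_div, le_div_iff₀ (by linarith)] at hn
  linarith

end Pool.Agent.Results.MP_81d17b_pr.LogHorn
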