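import Pool.Agent.Q83.SG.Fin

/-!
# Non-uniqueness of Gibbs states of spin glasses with unfrustrated three-dimensional planes

In `ℤ^(3+m)`, let the couplings in at least one plane parallel to `ℤ³` be unfrustrated and strong
on average and let all the other couplings be independent with a symmetric law. Then almost surely
there is more than one Gibbs state at every `β ≥ 1`; if there are two such planes, there are Gibbs
states which are not related by the global spin flip.
-/

set_option autoImplicit false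

open MeasureTheory ProbabilityTheory
open scoped NNReal

namespace Pool.Agent.Results.MP_81d17b_pr.StrongPlanes

/-- The sites of `ℤ^(3+m) = ℤ³ × ℤ^m`. The plane of height `h ∈ ℤ^m` is `ℤ³ × {h}`. -/
abbrev Site (m : ℕ) : Type := (Fin 3 → ℤ) × (Fin m → ℤ)

/-- The bond `(v, a)` joins `v` and `v + dir a`; each bond of `ℤ^(3+m)` is listed once. -/
abbrev Bond (m : ℕ) : Type := Site m × (Fin 3 ⊕ Fin m)

/-- The unit vectors: `inl i` is a direction of the planes, `inr j` is a transversal direction. -/
def dir {m : ℕ} : Fin 3 ⊕ Fin m → Site m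
  | Sum.inl i => (Pi.single i 1, 0)
  | Sum.inr j => (0, Pi.single j 1)

/-- The second end of a bond. -/
def far {m : ℕ} (b : Bond m) : Site m := b.1 + dir b.2

/-- `true` stands for `1`, `false` for `-1`. -/
def sign (a : Bool) : ℝ := if a then 1 else -1

open Classical in
/-- The couplings: `J b` on all bonds, except for the bonds `b = {u, v}` which lie inside one of
the planes of heights `h ∈ H`, where the coupling is `ε_u ε_v ψ (J b)`. -/
noncomputable def couplings {m : ℕ} (ε : Site m → Bool) (H : Set (Fin m → ℤ)) (ψ : ℝ → ℝ)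
    (J : Bond m → ℝ) : Bond m → ℝ :=
  fun b => if b.2.isLeft ∧ b.1.2 ∈ H then sign (ε b.1) * sign (ε (far b)) * ψ (J b) else J b

/-- The bonds with at least one end in `Λ`. -/
def bonds {m : ℕ} (Λ : Finset (Site m)) : Finset (Bond m) :=
  Λ.biUnion fun v => Finset.univ.biUnion fun a => {(v, a), (v - dir a, a)}

/-- `β ∑ K_uv ω_u ω_v`, summed over the bonds with at least one end in `Λ`. -/
def energy {m : ℕ} (β : ℝ) (K : Bond m → ℝ) (Λ : Finset (Site m)) (ω : Site m → Bool) : ℝ :=
  ∑ b ∈ bonds Λ, β * K b * (sign (ω b.1) * sign (ω (far b)))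

/-- The configuration equal to `η` on `Λ` and to `ω` off `Λ`. -/
def glue {m : ℕ} (Λ : Finset (Site m)) (η : Λ → Bool) (ω : Site m → Bool) : Site m → Bool :=
  fun v => if h : v ∈ Λ then η ⟨v, h⟩ else ω v

/-- The probability of `A` under the Edwards–Anderson measure in `Λ` with boundary condition `ω`
(weights `exp (β ∑ K_uv ω_u ω_v)`). -/
noncomputable def finiteVolume {m : ℕ} (β : ℝ) (K : Bond m → ℝ) (Λ : Finset (Site m))
    (ω : Site m → Bool) (A : Set (Site m → Bool)) : ℝ :=
  (∑ η : Λ → Bool, Real.exp (energy β K Λ (glue Λ η ω)) *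
      A.indicator (fun _ => (1 : ℝ)) (glue Λ η ω)) /
    ∑ η : Λ → Bool, Real.exp (energy β K Λ (glue Λ η ω))

/-- Gibbs states at `(β, K)`: probability measures on the configurations which satisfy the DLR
equations for all finite sets. -/
def IsGibbs {m : ℕ} (β : ℝ) (K : Bond m → ℝ) (π : Measure (Site m → Bool)) : Prop :=
  IsProbabilityMeasure π ∧ ∀ (Λ : Finset (Site m)) (A : Set (Site m → Bool)), MeasurableSet A →
    (π A).toReal = ∫ ω, finiteVolume β K Λ ω A ∂π

/-- **Theorem.** Let `m` and `c ≥ 0` be given. There is `K₀` such that for every symmetric law `μ`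
which is sub-Gaussian with variance proxy `c` (for instance `±1` with probability `1/2`, `c = 1`),
every measurable `ψ` with `∫ exp (-ψ) dμ ≤ exp (-K₀)` (for instance a constant `ψ ≥ K₀`), every
`β ≥ 1`, all signs `ε` and every set `H ⊆ ℤ^m` of heights, for almost all realisations `J` of
independent couplings of law `μ`:
* if `H` is not empty, there is more than one Gibbs state at `(β, couplings ε H ψ J)`;
* if `H` has at least two elements, there are Gibbs states `π`, `π'` and sites `u`, `v` such that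
  the spins at `u` and `v` agree with `π`-probability larger than `1/2` and with `π'`-probability
  smaller than `1/2`. -/
theorem result (m : ℕ) (c : ℝ≥0) :
    ∃ K₀ : ℝ, ∀ (μ : Measure ℝ) [IsProbabilityMeasure μ],
      μ.map (fun x => -x) = μ → HasSubgaussianMGF id c μ →
      ∀ ψ : ℝ → ℝ, Measurable ψ →
        ∫⁻ x, ENNReal.ofReal (Real.exp (-ψ x)) ∂μ ≤ ENNReal.ofReal (Real.exp (-K₀)) →
      ∀ β : ℝ, 1 ≤ β → ∀ (ε : Site m → Bool) (H : Set (Fin m → ℤ)),
        (H.Nonempty → ∀ᵐ J ∂(Measure.infinitePi fun _ : Bond m => μ),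
          ∃ π π' : Measure (Site m → Bool), IsGibbs β (couplings ε H ψ J) π ∧
            IsGibbs β (couplings ε H ψ J) π' ∧ π ≠ π') ∧
        (H.Nontrivial → ∀ᵐ J ∂(Measure.infinitePi fun _ : Bond m => μ),
          ∃ (π π' : Measure (Site m → Bool)) (u v : Site m),
            IsGibbs β (couplings ε H ψ J) π ∧ IsGibbs β (couplings ε H ψ J) π' ∧
            1 / 2 < (π {ω | ω u = ω v}).toReal ∧ (π' {ω | ω u = ω v}).toReal < 1 / 2) := by
  obtain ⟨K₀, h⟩ := Q83.SG.a_T1c m c
  have e : ∀ a, (dir a : Site m) = Q83.SG.dir a := by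
    intro a
    cases a <;> rfl
  have ef : ∀ b : Bond m, far b = Q83.SG.far b := by
    intro b
    unfold far Q83.SG.far
    rw [e]
  have ec : ∀ (ε : Site m → Bool) (H : Set (Fin m → ℤ)) (ψ : ℝ → ℝ) (J : Bond m → ℝ),
      couplings ε H ψ J = Q83.SG.plantE ε H ψ J := by
    intro ε H ψ J
    funext b
    unfold couplings Q83.SG.plantE
    rw [ef]
    rfl
  have eb : ∀ Λ : Finset (Site m), bonds Λ = Q83.SG.bonds Λ := by
    intro Λ
    unfold bonds Q83.SG.bonds
    simp only [e]
  have ee : ∀ (β : ℝ) (K : Bond m → ℝ) (Λ : Finset (Site m)) (ω : Site m → Bool),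
      energy β K Λ ω = Q83.SG.pair (β • K) Λ (Q83.SG.spin ω) := by
    intro β K Λ ω
    unfold energy Q83.SG.pair
    rw [eb]
    refine Finset.sum_congr rfl fun b _ => ?_
    rw [ef]
    rfl
  have eg : ∀ (Λ : Finset (Site m)) (η : Λ → Bool) (ω : Site m → Bool),
      glue Λ η ω = Q83.SG.glue Λ η ω := fun _ _ _ => rfl
  have efv : ∀ (β : ℝ) (K : Bond m → ℝ) (Λ : Finset (Site m)) (ω : Site m → Bool)
      (A : Set (Site m → Bool)), finiteVolume β K Λ ω A = Q83.SG.fv (β • K) Λ ω A := by
    intro β K Λ ω A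
    unfold finiteVolume Q83.SG.fv
    simp only [ee, eg]
  have ei : ∀ (β : ℝ) (K : Bond m → ℝ) (π : Measure (Site m → Bool)),
      IsGibbs β K π ↔ Q83.SG.IsGibbs (β • K) π := by
    intro β K π
    unfold IsGibbs Q83.SG.IsGibbs
    simp only [efv]
  refine ⟨K₀, fun μ _ hsym hsub ψ hψ hS β hβ ε H => ?_⟩
  simp only [ec, ei]
  exact h μ hsym hsub ψ hψ hS β hβ ε H

end Pool.Agent.Results.MP_81d17b_pr.StrongPlanes
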